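import Pool.Agent.H93.GT.Targets

/-!
# The multipliers of the lines
-/

set_option autoImplicit false

namespace Pool.Agent.H59.GT

open MeasureTheory AddCircle Finset Filter Topology Pool.Agent.H87.Synth Pool.Agent.H85.SC
open Pool.Agent.H93.GT

theorem gam (h1 : T_APM) (h2 : T_MUL) : T_GAM := by
  obtain ⟨a1, a2, a3, a4, a5, -⟩ := h1
  obtain ⟨-, hle, hadd, hsub, hmul, hsm, hcst, -, -, -⟩ := h2
  have hlr : ∀ c n e, MulB (ind (lr c n e)) 1 := by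
    intro c n e
    have hpos : 0 < 6 * Mo n := by
      unfold Mo
      positivity
    have h3 := a1 (6 * Mo n) (cc n + c * 4 ^ Nat.size n + Mo n * e) hpos
    have h4 : (fun z : ℤ => (((6 * Mo n : ℕ) : ℤ)) ∣
        z - (cc n + c * 4 ^ Nat.size n + Mo n * e)) = lr c n e := by
      funext z
      unfold lr
      push_cast
      rw [sub_add_eq_sub_sub, sub_add_eq_sub_sub]
    rwa [h4] at h3
  refine ⟨hlr, a3, a4, a2, fun n => ?_, a5⟩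
  set p0 := Real.sqrt (pr n 0)
  set p1 := Real.sqrt (pr n 1)
  set p2 := Real.sqrt (pr n 2)
  refine ⟨1 * (‖(1 / 4 : ℂ)‖ * ((‖(1 : ℂ)‖ + p0 * p1) * (‖(1 : ℂ)‖ + 1 * (p0 * p2)))), fun a => ?_⟩
  have h5 : MulB (fun z => (1 : ℂ) + (chi n 0 z : ℂ) * chi n 1 z) (‖(1 : ℂ)‖ + p0 * p1) :=
    hadd _ _ _ _ (hcst 1) (hmul _ _ _ _ (a5 n 0) (a5 n 1))
  have h6 : MulB (fun z => (-1 : ℂ) ^ a * ((chi n 0 z : ℂ) * chi n 2 z)) (1 * (p0 * p2)) := by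
    have h7 := hsm _ _ ((-1 : ℂ) ^ a) (hmul _ _ _ _ (a5 n 0) (a5 n 2))
    have h8 : ‖(-1 : ℂ) ^ a‖ = 1 := by simp
    rwa [h8] at h7
  have h7 : MulB (fun z => (1 : ℂ) - (-1 : ℂ) ^ a * ((chi n 0 z : ℂ) * chi n 2 z))
      (‖(1 : ℂ)‖ + 1 * (p0 * p2)) := hsub _ _ _ _ (hcst 1) h6
  have h8 := hmul _ _ _ _ (hlr 1 n 4) (hsm _ _ (1 / 4 : ℂ) (hmul _ _ _ _ h5 h7))
  have h9 : (fun z => ind (lr 1 n 4) z * ((1 / 4 : ℂ) * (((1 : ℂ) + (chi n 0 z : ℂ) * chi n 1 z) *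
      ((1 : ℂ) - (-1 : ℂ) ^ a * ((chi n 0 z : ℂ) * chi n 2 z))))) = trg n a := by
    funext z
    unfold trg
    ring
  rwa [h9] at h8

end Pool.Agent.H59.GT
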