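import Pool.Agent.H93.GT.Targets

/-!
# The dichotomy for the synthesis property, row GDJ: the classes are disjoint
-/

set_option autoImplicit false

namespace Pool.Agent.H59.GT

open Finset Pool.Agent.H87.Synth Pool.Agent.H85.SC Pool.Agent.H93.GT
open Pool.Agent.H93.ET (sg jj iE iA)

section

variable {d : ℕ → ℝ} (P : Pos d)

/-- the class of the emitting points of window `m` -/
private noncomputable def nxt (n i m : ℕ) (s : Bool) : GC :=
  if m + 1 < P.N n i then GC.blk n i (m + 1) s else GC.sta n i s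

/-- the class of a point of a pipe -/
private def PC (n i : ℕ) (t κ : ℤ) (s : Bool) (c : GC) : Prop :=
  (∃ m, m < P.N n i ∧ t ∈ P.T n i m ∧
    ((κ = iA (P.g n i t) ∧ c = GC.blk n i m s) ∨ (κ = iE (P.g n i t) ∧ c = nxt P n i m s))) ∨
  ((∀ m, m < P.N n i → t ∉ P.T n i m) ∧ c = GC.par n i t s)

open Classical in
/-- the class of the drop points -/
private noncomputable def dcl (S : Set ℕ) (n i : ℕ) (s : Bool) : GC :=
  if i + 1 < 2 ^ (lg i + 1) then GC.blk n (i + 1) 0 s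
  else if n + 2 ^ lg i ∈ S then GC.blk (n + 2 ^ lg i) (i + 1) 0 s else GC.ldr n i

/-- the class of the stay points -/
private def scl (n i : ℕ) (s : Bool) : GC :=
  if i = 2 ^ lg i then GC.blk n (2 * i) 0 s else GC.lst n i

/-- the class of an element of a region -/
private def RC (S : Set ℕ) (n i : ℕ) (z : ℤ) (c : GC) : Prop :=
  ∃ s, ((s1 n i z = sg s ∧ s2 n i z = sg s ∧ s3 n i z = sg s) ∧ c = GC.sta n i s) ∨
    ((s1 n i z = sg s ∧ s2 n i z = sg s ∧ s3 n i z = -sg s) ∧ c = scl n i s) ∨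
    ((s1 n i z ≠ s2 n i z ∧ s3 n i z = sg s) ∧ c = dcl S n i s)

private theorem sg_inj {s s' : Bool} (h : sg s = sg s') : s = s' := by
  revert h
  cases s <;> cases s' <;> simp [sg]

private theorem sg_neg {s s' : Bool} (h : sg s = sg s') (h' : sg s = -sg s') : False := by
  revert h h'
  cases s <;> cases s' <;> simp [sg]

private theorem iA_01 (x : ℝ) : iA x = 0 ∨ iA x = 1 := by
  unfold iA
  split_ifs
  · exact Or.inr rfl
  · exact Or.inl rfl

private theorem iE_01 (x : ℝ) : iE x = 0 ∨ iE x = 1 := by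
  unfold iE
  split_ifs
  · exact Or.inl rfl
  · exact Or.inr rfl

private theorem iA_ne_iE (x : ℝ) : iA x ≠ iE x := by
  unfold iA iE
  split_ifs <;> norm_num

private theorem pc_fun (h1 : T_GUQ) {n i : ℕ} {t κ : ℤ} {s : Bool} {c c' : GC}
    (hv : Valid n i) (hi : i ≠ 1) (h : PC P n i t κ s c) (h' : PC P n i t κ s c') : c = c' := by
  rcases h with ⟨m, hm, ht, h⟩ | ⟨hn, rfl⟩
  · rcases h' with ⟨m', hm', ht', h'⟩ | ⟨hn', -⟩
    · obtain rfl := (h1 d P).2.2.2 n i m m' t hv hi hm hm' ht ht'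
      rcases h with ⟨hk, rfl⟩ | ⟨hk, rfl⟩
      · rcases h' with ⟨-, rfl⟩ | ⟨hk', -⟩
        · rfl
        · exact absurd (hk.symm.trans hk') (iA_ne_iE _)
      · rcases h' with ⟨hk', -⟩ | ⟨-, rfl⟩
        · exact absurd (hk'.symm.trans hk) (iA_ne_iE _)
        · rfl
    · exact absurd ht (hn' m hm)
  · rcases h' with ⟨m', hm', ht', -⟩ | ⟨-, rfl⟩
    · exact absurd ht' (hn m' hm')
    · rfl

private theorem rc_fun {S : Set ℕ} {n i : ℕ} {z : ℤ} {c c' : GC} (h : RC S n i z c)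
    (h' : RC S n i z c') : c = c' := by
  obtain ⟨s, h⟩ := h
  obtain ⟨s', h'⟩ := h'
  rcases h with ⟨⟨a, b, e⟩, rfl⟩ | ⟨⟨a, b, e⟩, rfl⟩ | ⟨⟨a, e⟩, rfl⟩
  · rcases h' with ⟨⟨a', b', e'⟩, rfl⟩ | ⟨⟨a', b', e'⟩, rfl⟩ | ⟨⟨a', e'⟩, rfl⟩
    · rw [sg_inj (a.symm.trans a')]
    · exact (sg_neg (a.symm.trans a') (e.symm.trans e')).elim
    · exact absurd (a.trans b.symm) a'
  · rcases h' with ⟨⟨a', b', e'⟩, rfl⟩ | ⟨⟨a', b', e'⟩, rfl⟩ | ⟨⟨a', e'⟩, rfl⟩
    · exact (sg_neg (a'.symm.trans a) (e'.symm.trans e)).elim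
    · rw [sg_inj (a.symm.trans a')]
    · exact absurd (a.trans b.symm) a'
  · rcases h' with ⟨⟨a', b', e'⟩, rfl⟩ | ⟨⟨a', b', e'⟩, rfl⟩ | ⟨⟨a', e'⟩, rfl⟩
    · exact absurd (a'.trans b'.symm) a
    · exact absurd (a'.trans b'.symm) a
    · rw [sg_inj (e.symm.trans e')]

/-- the address of an element of a class -/
private def Adr (S : Set ℕ) (z : ℤ) (c : GC) : Prop :=
  (∃ n i t κ s, Valid n i ∧ i ≠ 1 ∧ P.g n i t ≠ 0 ∧ (κ = 0 ∨ κ = 1) ∧ z = pp n i t κ s ∧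
    PC P n i t κ s c) ∨
  ∃ n i, P.Reg n i z ∧ RC S n i z c

private theorem adr_fun (h1 : T_GUQ) {S : Set ℕ} {z : ℤ} {c c' : GC} (h : Adr P S z c)
    (h' : Adr P S z c') : c = c' := by
  rcases h with ⟨n, i, t, κ, s, hv, hi, hg, hk, hz, hc⟩ | ⟨n, i, hz, hc⟩
  · rcases h' with ⟨n', i', t', κ', s', hv', hi', hg', hk', hz', hc'⟩ | ⟨n', i', hz', hc'⟩
    · obtain ⟨rfl, rfl, rfl, rfl, rfl⟩ := (h1 d P).1 n i t κ s n' i' t' κ' s' hv hi hg hk hv' hi'
        hg' hk' (hz.symm.trans hz')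
      exact pc_fun P h1 hv hi hc hc'
    · exact absurd hz ((h1 d P).2.2.1 n' i' z n i t κ s hz' hk)
  · rcases h' with ⟨n', i', t', κ', s', hv', hi', hg', hk', hz', hc'⟩ | ⟨n', i', hz', hc'⟩
    · exact absurd hz' ((h1 d P).2.2.1 n i z n' i' t' κ' s' hz hk')
    · obtain ⟨rfl, rfl⟩ := (h1 d P).2.1 n i n' i' z hz hz'
      exact rc_fun hc hc'

private theorem adr_AB {S : Set ℕ} {n i m : ℕ} (hv : Valid n i) (hi : i ≠ 1) (hm : m < P.N n i)
    {s : Bool} {z : ℤ} (hz : z ∈ P.AB n i m s) : Adr P S z (GC.blk n i m s) := by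
  obtain ⟨t, ht, rfl⟩ := mem_image.1 hz
  exact Or.inl ⟨n, i, t, _, s, hv, hi, (P.hT n i m hv hi hm).2.1 t ht, iA_01 _, rfl,
    Or.inl ⟨m, hm, ht, Or.inl ⟨rfl, rfl⟩⟩⟩

private theorem adr_EB {S : Set ℕ} {n i m : ℕ} (hv : Valid n i) (hi : i ≠ 1) (hm : m < P.N n i)
    {s : Bool} {z : ℤ} (hz : z ∈ P.EB n i m s) : Adr P S z (nxt P n i m s) := by
  obtain ⟨t, ht, rfl⟩ := mem_image.1 hz
  exact Or.inl ⟨n, i, t, _, s, hv, hi, (P.hT n i m hv hi hm).2.1 t ht, iE_01 _, rfl,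
    Or.inl ⟨m, hm, ht, Or.inr ⟨rfl, rfl⟩⟩⟩

private theorem mem_FA (h2 : T_GSG) {n i : ℕ} {s z : ℤ} (hz : z ∈ P.FA n i s) :
    P.Reg n i z ∧ s1 n i z = s ∧ s2 n i z = s ∧ s3 n i z = s := by
  obtain ⟨a, b⟩ := mem_filter.1 hz
  exact ⟨((h2 d P).1 n i z).1 a, b⟩

private theorem mem_FS (h2 : T_GSG) {n i : ℕ} {s z : ℤ} (hz : z ∈ P.FS n i s) :
    P.Reg n i z ∧ s1 n i z = s ∧ s2 n i z = s ∧ s3 n i z = -s := by
  obtain ⟨a, b⟩ := mem_filter.1 hz
  exact ⟨((h2 d P).1 n i z).1 a, b⟩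

private theorem mem_FD (h2 : T_GSG) {n i : ℕ} {s z : ℤ} (hz : z ∈ P.FD n i s) :
    P.Reg n i z ∧ s1 n i z ≠ s2 n i z ∧ s3 n i z = s := by
  obtain ⟨a, b⟩ := mem_filter.1 hz
  exact ⟨((h2 d P).1 n i z).1 a, b⟩

private theorem lg_pow (b : ℕ) : lg (2 ^ b) = b := by
  unfold lg
  exact Nat.log_pow (by norm_num) b

private theorem lg_pred (b : ℕ) : lg (2 ^ (b + 1) - 1) = b := by
  unfold lg
  have h : 1 ≤ 2 ^ b := Nat.one_le_two_pow
  apply Nat.log_eq_of_pow_le_of_lt_pow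
  · rw [pow_succ]
    omega
  · rw [pow_succ]
    omega

private theorem adr_EM (h2 : T_GSG) (h3 : T_PRE) {S : Set ℕ} {n i : ℕ} (hn : n ∈ S)
    (hv : Valid n i) (hi : i ≠ 1) {s : Bool} {z : ℤ} (hz : z ∈ P.EM n i (sg s)) :
    Adr P S z (GC.blk n i 0 s) := by
  have hlt : i < 2 ^ (lg i + 1) := by
    unfold lg
    exact Nat.lt_pow_succ_log_self (by norm_num) i
  rcases h3.1 n i hv hi with ⟨b, hb, hnb, -, -⟩ | ⟨b, n', hb, hnb, hn', -, -⟩ | ⟨hne, -, hlg, -, -⟩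
  · have e1 : lg i = b + 1 := by
      rw [hb]
      exact lg_pow (b + 1)
    unfold Pos.EM at hz
    rw [e1, if_pos hb, Nat.add_sub_cancel, if_pos hnb] at hz
    obtain ⟨g1, g2⟩ := mem_FS P h2 hz
    refine Or.inr ⟨n, 2 ^ b, g1, s, Or.inr (Or.inl ⟨g2, ?_⟩)⟩
    unfold scl
    rw [if_pos (by rw [lg_pow]), hb, pow_succ, mul_comm]
  · have e1 : lg i = b + 1 := by
      rw [hb]
      exact lg_pow (b + 1)
    have e2 : ¬ n < 2 ^ b := by omega
    have e3 : n - 2 ^ b = n' := by omega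
    unfold Pos.EM at hz
    rw [e1, if_pos hb, Nat.add_sub_cancel, if_neg e2, e3] at hz
    obtain ⟨g1, g2⟩ := mem_FD P h2 hz
    refine Or.inr ⟨n', i - 1, g1, s, Or.inr (Or.inr ⟨g2, ?_⟩)⟩
    have e4 : lg (i - 1) = b := by
      rw [hb]
      exact lg_pred b
    have h1 : 1 ≤ 2 ^ (b + 1) := Nat.one_le_two_pow
    have e5 : i - 1 + 1 = i := by omega
    unfold dcl
    rw [e4, e5, if_neg (by omega), ← hnb, if_pos hn]
  · unfold Pos.EM at hz
    rw [if_neg hne] at hz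
    obtain ⟨g1, g2⟩ := mem_FD P h2 hz
    refine Or.inr ⟨n, i - 1, g1, s, Or.inr (Or.inr ⟨g2, ?_⟩)⟩
    have h1 : 1 ≤ i := hv.1
    have e5 : i - 1 + 1 = i := by omega
    unfold dcl
    rw [hlg, e5, if_pos hlt]

private theorem adr_cls (h2 : T_GSG) (h3 : T_PRE) (h5 : T_GSZ) {S : Set ℕ} {z : ℤ} {c : GC}
    (hz : z ∈ P.cls S c) : Adr P S z c := by
  rcases c with ⟨n, i, m, s⟩ | ⟨n, i, s⟩ | ⟨n, i⟩ | ⟨n, i⟩ | ⟨n, i, t, s⟩
  · unfold Pos.cls at hz
    simp only at hz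
    split_ifs at hz with h1 h4
    · obtain ⟨hn, hv, hi, hm⟩ := h1
      rcases mem_union.1 hz with h | h
      · exact adr_AB P hv hi hm h
      · subst h4
        exact adr_EM P h2 h3 hn hv hi h
    · obtain ⟨hn, hv, hi, hm⟩ := h1
      rcases mem_union.1 hz with h | h
      · exact adr_AB P hv hi hm h
      · have h6 := adr_EB P (S := S) hv hi (by omega : m - 1 < P.N n i) h
        have h7 : m - 1 + 1 = m := by omega
        unfold nxt at h6
        rw [h7, if_pos hm] at h6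
        exact h6
    · exact absurd hz (notMem_empty z)
  · unfold Pos.cls at hz
    simp only at hz
    split_ifs at hz with h1
    · obtain ⟨hn, hv, hi⟩ := h1
      rcases mem_union.1 hz with h | h
      · obtain ⟨g1, g2⟩ := mem_FA P h2 h
        exact Or.inr ⟨n, i, g1, s, Or.inl ⟨g2, rfl⟩⟩
      · have hN := ((h5 d P).2.2.2.2.2 n i hv hi).2.1
        have h6 := adr_EB P (S := S) hv hi (by omega : P.N n i - 1 < P.N n i) h
        have h7 : ¬ (P.N n i - 1 + 1 < P.N n i) := by omega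
        unfold nxt at h6
        rw [if_neg h7] at h6
        exact h6
    · exact absurd hz (notMem_empty z)
  · unfold Pos.cls at hz
    simp only at hz
    split_ifs at hz with h1
    · obtain ⟨hn, hv, hi⟩ := h1
      have hc : ∀ s, scl n i s = GC.lst n i := by
        intro s
        unfold scl
        rw [if_neg hi]
      rcases mem_union.1 hz with h | h
      · obtain ⟨g1, g2⟩ := mem_FS P h2 h
        exact Or.inr ⟨n, i, g1, true, Or.inr (Or.inl ⟨g2, (hc true).symm⟩)⟩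
      · obtain ⟨g1, g2⟩ := mem_FS P h2 h
        exact Or.inr ⟨n, i, g1, false, Or.inr (Or.inl ⟨g2, (hc false).symm⟩)⟩
    · exact absurd hz (notMem_empty z)
  · unfold Pos.cls at hz
    simp only at hz
    split_ifs at hz with h1
    · obtain ⟨hn, hv, hi, hnS⟩ := h1
      have hc : ∀ s, dcl S n i s = GC.ldr n i := by
        intro s
        unfold dcl
        rw [if_neg (by omega), if_neg hnS]
      rcases mem_union.1 hz with h | h
      · obtain ⟨g1, g2⟩ := mem_FD P h2 h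
        exact Or.inr ⟨n, i, g1, true, Or.inr (Or.inr ⟨g2, (hc true).symm⟩)⟩
      · obtain ⟨g1, g2⟩ := mem_FD P h2 h
        exact Or.inr ⟨n, i, g1, false, Or.inr (Or.inr ⟨g2, (hc false).symm⟩)⟩
    · exact absurd hz (notMem_empty z)
  · unfold Pos.cls at hz
    simp only at hz
    split_ifs at hz with h1
    · obtain ⟨hn, hv, hi, hg, hT⟩ := h1
      rcases mem_insert.1 hz with h | h
      · exact Or.inl ⟨n, i, t, 0, s, hv, hi, hg, Or.inl rfl, h, Or.inr ⟨hT, rfl⟩⟩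
      · exact Or.inl ⟨n, i, t, 1, s, hv, hi, hg, Or.inr rfl, mem_singleton.1 h,
          Or.inr ⟨hT, rfl⟩⟩
    · exact absurd hz (notMem_empty z)

end

theorem gdj (h1 : T_GUQ) (h2 : T_GSG) (h3 : T_PRE) (h4 : T_LNS) (h5 : T_GSZ) : T_GDJ := by
  intro d P
  refine ⟨fun S c c' z h h' => adr_fun P h1 (adr_cls P h2 h3 h5 h) (adr_cls P h2 h3 h5 h'),
    ?_, ?_, ?_⟩
  · intro n i m m' s s' hv hi hm hm'
    refine disjoint_left.2 fun z hz hz' => ?_
    obtain ⟨t, ht, rfl⟩ := mem_image.1 hz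
    obtain ⟨t', ht', h⟩ := mem_image.1 hz'
    obtain ⟨-, -, rfl, h6, -⟩ := (h1 d P).1 n i t' _ s' n i t _ s hv hi
      ((P.hT n i m' hv hi hm').2.1 t' ht') (iE_01 _) hv hi ((P.hT n i m hv hi hm).2.1 t ht)
      (iA_01 _) h
    exact iA_ne_iE _ h6.symm
  · intro n i m s u hv hi hm
    refine disjoint_left.2 fun z hz hz' => ?_
    obtain ⟨t, ht, rfl⟩ := mem_image.1 hz
    obtain ⟨n', i', hR, -⟩ := (h2 d P).2.2.2.2.2 n i u _ hv hi hz'
    exact (h1 d P).2.2.1 n' i' _ n i t _ s hR (iA_01 _) rfl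
  · intro n i m s u hv hi hm
    refine disjoint_left.2 fun z hz hz' => ?_
    obtain ⟨t, ht, rfl⟩ := mem_image.1 hz'
    exact (h1 d P).2.2.1 n i _ n i t _ s (mem_FA P h2 hz).1 (iE_01 _) rfl

end Pool.Agent.H59.GT
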